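import Mathlib
import Pool.Agent.U136.DX.Stm3

set_option autoImplicit false

/-!
Project DX, package LAPR: the derivatives of `(e · x) |x| ^ (2 m)`, `e ≠ 0`, `m ≥ 5`, span the quintic
forms, from the case `e = e₀`, `m = 5`.
-/

namespace Pool.Agent.U27.DX

open MvPolynomial Pool.Agent.U136.DX

/-- polynomials in three variables -/
abbrev R3 := MvPolynomial (Fin 3) ℝ

/-- iterated derivative -/
noncomputable def dl (l : List (Fin 3)) (P : R3) : R3 := l.foldr (fun i R => pderiv i R) P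

/-- span of the derivatives of order at least one -/
noncomputable def V (P : R3) : Submodule ℝ R3 := Submodule.span ℝ (Der P)

/-- span of all derivatives -/
noncomputable def V0 (P : R3) : Submodule ℝ R3 := Submodule.span ℝ {Q | ∃ l : List (Fin 3), Q = dl l P}

theorem V_le_V0 (P : R3) : V P ≤ V0 P := by
  refine Submodule.span_mono ?_
  rintro Q ⟨l, -, h⟩
  exact ⟨l, h⟩

theorem V_pd {P Q : R3} (i : Fin 3) (h : Q ∈ V0 P) : pderiv i Q ∈ V P := by
  unfold V0 at h
  induction h using Submodule.span_induction with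
  | mem x hx =>
    obtain ⟨l, rfl⟩ := hx
    exact Submodule.subset_span ⟨i :: l, by simp, rfl⟩
  | zero =>
    rw [map_zero]
    exact (V P).zero_mem
  | add x y _ _ hx hy =>
    rw [map_add]
    exact (V P).add_mem hx hy
  | smul c x _ hx =>
    rw [Derivation.map_smul]
    exact (V P).smul_mem c hx

theorem dl_mem {P Q : R3} (h : Q ∈ V P) (l : List (Fin 3)) : dl l Q ∈ V P := by
  induction l with
  | nil => exact h
  | cons i l ih => exact V_pd i (V_le_V0 P ih)

theorem V_le {P Q : R3} (h : Q ∈ V P) : V Q ≤ V P := by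
  refine Submodule.span_le.2 ?_
  rintro x ⟨l, -, rfl⟩
  exact dl_mem h l

theorem dl_smul (c : ℝ) (P : R3) (l : List (Fin 3)) : dl l (c • P) = c • dl l P := by
  induction l with
  | nil => rfl
  | cons i l ih =>
    change pderiv i (dl l (c • P)) = c • pderiv i (dl l P)
    rw [ih, Derivation.map_smul]

theorem V_smul (c : ℝ) (P : R3) : V (c • P) ≤ V P := by
  refine Submodule.span_le.2 ?_
  rintro x ⟨l, hl, rfl⟩
  have h := dl_smul c P l
  unfold dl at h
  rw [SetLike.mem_coe, h]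
  exact (V P).smul_mem c (Submodule.subset_span ⟨l, hl, rfl⟩)

/-- the linear form -/
noncomputable def Lf (e : Fin 3 → ℝ) : R3 := ∑ i, C (e i) * X i

/-- the square of the norm -/
noncomputable def rr : R3 := ∑ i, X i ^ 2

theorem pd_L (e : Fin 3 → ℝ) (i : Fin 3) : pderiv i (Lf e) = C (e i) := by
  unfold Lf
  rw [map_sum, Finset.sum_eq_single i]
  · simp
  · intro j _ hj
    simp [pderiv_X_of_ne hj]
  · simp

theorem pd_r (i : Fin 3) : pderiv i rr = 2 * X i := by
  unfold rr
  rw [map_sum, Finset.sum_eq_single i]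
  · simp [Derivation.leibniz_pow]
  · intro j _ hj
    simp [Derivation.leibniz_pow, pderiv_X_of_ne hj]
  · simp

theorem lap (e : Fin 3 → ℝ) (n : ℕ) : ∑ i, pderiv i (pderiv i (lapP e (n + 2))) =
    (2 * ((n : ℝ) + 2) * (2 * ((n : ℝ) + 2) + 3)) • lapP e (n + 1) := by
  have h0 : ∀ m, lapP e m = Lf e * rr ^ m := fun m => rfl
  have h1 : ∀ i, pderiv i (Lf e * rr ^ (n + 2)) =
      C (e i) * rr ^ (n + 2) + Lf e * (((n : R3) + 2) * rr ^ (n + 1) * (2 * X i)) := by
    intro i
    rw [Derivation.leibniz, Derivation.leibniz_pow, pd_L, pd_r]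
    simp only [smul_eq_mul, nsmul_eq_mul, show n + 2 - 1 = n + 1 from rfl]
    push_cast
    ring
  have h2 : ∀ i, pderiv i (C (e i) * rr ^ (n + 2) +
      Lf e * (((n : R3) + 2) * rr ^ (n + 1) * (2 * X i))) =
      4 * ((n : R3) + 2) * rr ^ (n + 1) * (C (e i) * X i) +
      4 * ((n : R3) + 2) * ((n : R3) + 1) * Lf e * rr ^ n * X i ^ 2 +
      2 * ((n : R3) + 2) * Lf e * rr ^ (n + 1) := by
    intro i
    have hn : pderiv i (n : R3) = 0 := by
      rw [← map_natCast C n, pderiv_C]
    have h2' : pderiv i (2 : R3) = 0 := by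
      rw [← map_ofNat C 2, pderiv_C]
    simp only [map_add, Derivation.leibniz, Derivation.leibniz_pow, pd_L, pd_r, hn, h2',
      pderiv_C, pderiv_X_self, smul_eq_mul, nsmul_eq_mul, show n + 2 - 1 = n + 1 from rfl,
      show n + 1 - 1 = n from rfl]
    push_cast
    ring
  rw [h0, h0]
  simp only [h1, h2]
  rw [Finset.sum_add_distrib, Finset.sum_add_distrib, ← Finset.mul_sum, ← Finset.mul_sum]
  have e1 : ∑ i, C (e i) * X i = Lf e := rfl
  have e2 : ∑ i : Fin 3, (X i : R3) ^ 2 = rr := rfl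
  rw [e1, e2, smul_eq_C_mul]
  simp only [Finset.sum_const, Finset.card_univ, Fintype.card_fin, nsmul_eq_mul, map_mul, map_add,
    map_ofNat, map_natCast]
  push_cast
  ring

theorem step (e : Fin 3 → ℝ) (n : ℕ) : lapP e (n + 1) ∈ V (lapP e (n + 2)) := by
  have h := lap e n
  obtain ⟨c, hc⟩ : ∃ c : ℝ, c = 2 * ((n : ℝ) + 2) * (2 * ((n : ℝ) + 2) + 3) := ⟨_, rfl⟩
  have hc0 : c ≠ 0 := by
    rw [hc]
    positivity
  rw [← hc] at h
  have h2 : lapP e (n + 1) = c⁻¹ • ∑ i, pderiv i (pderiv i (lapP e (n + 2))) := by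
    rw [h, smul_smul, inv_mul_cancel₀ hc0, one_smul]
  rw [h2]
  refine (V _).smul_mem _ ((V _).sum_mem fun i _ => ?_)
  exact Submodule.subset_span ⟨[i, i], by simp, rfl⟩

theorem up (e : Fin 3 → ℝ) (m : ℕ) (hm : 5 ≤ m) : V (lapP e 5) ≤ V (lapP e m) := by
  induction m, hm using Nat.le_induction with
  | base => exact le_rfl
  | succ m hm ih =>
    obtain ⟨n, rfl⟩ : ∃ n, m = n + 1 := ⟨m - 1, by omega⟩
    exact ih.trans (V_le (step e n))

/-! ### Rotations -/

/-- the substitution -/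
noncomputable def ph (H : Fin 3 → Fin 3 → ℝ) : R3 →ₐ[ℝ] R3 := aeval fun i => ∑ j, C (H i j) * X j

theorem ph_X (H : Fin 3 → Fin 3 → ℝ) (i : Fin 3) : ph H (X i) = ∑ j, C (H i j) * X j := by
  unfold ph
  rw [aeval_X]

theorem ph_C (H : Fin 3 → Fin 3 → ℝ) (a : ℝ) : ph H (C a) = C a := by
  unfold ph
  rw [aeval_C]
  rfl

theorem pd_ph (H : Fin 3 → Fin 3 → ℝ) (i : Fin 3) (Q : R3) :
    pderiv i (ph H Q) = ∑ j, C (H j i) * ph H (pderiv j Q) := by
  induction Q using MvPolynomial.induction_on with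
  | C a => simp
  | add p q hp hq =>
    simp only [map_add, hp, hq, mul_add, Finset.sum_add_distrib]
  | mul_X p k hp =>
    have h1 : pderiv i (∑ j, C (H k j) * X j : R3) = C (H k i) := pd_L (H k) i
    have h2 : ∀ j, pderiv j (p * X k) = p * pderiv j (X k) + X k * pderiv j p := by
      intro j
      rw [Derivation.leibniz]
      simp only [smul_eq_mul]
    rw [map_mul, Derivation.leibniz, hp, ph_X, h1]
    simp only [h2, map_add, map_mul, ph_X, smul_eq_mul, mul_add, Finset.sum_add_distrib]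
    congr 1
    · rw [Finset.sum_eq_single k]
      · rw [pderiv_X_self, map_one]
        ring
      · intro j _ hj
        rw [pderiv_X_of_ne hj.symm]
        simp
      · simp
    · rw [Finset.mul_sum]
      refine Finset.sum_congr rfl fun j _ => ?_
      ring

theorem ph_pd (H : Fin 3 → Fin 3 → ℝ) (hrow : ∀ j k, ∑ i, H j i * H k i = if j = k then 1 else 0)
    (k : Fin 3) (Q : R3) : ph H (pderiv k Q) = ∑ i, H k i • pderiv i (ph H Q) := by
  simp only [pd_ph, smul_eq_C_mul, Finset.mul_sum]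
  rw [Finset.sum_comm]
  have h : ∀ j, ∑ i, C (H k i) * (C (H j i) * ph H (pderiv j Q)) =
      (if k = j then 1 else 0) * ph H (pderiv j Q) := by
    intro j
    have h1 : ∑ i, (C (H k i) : R3) * C (H j i) = if k = j then 1 else 0 := by
      simp only [← map_mul]
      rw [← map_sum, hrow k j]
      split_ifs <;> simp
    rw [← h1, Finset.sum_mul]
    exact Finset.sum_congr rfl fun i _ => by ring
  simp only [h]
  simp

theorem ph_dl (H : Fin 3 → Fin 3 → ℝ) (hrow : ∀ j k, ∑ i, H j i * H k i = if j = k then 1 else 0)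
    (P : R3) (l : List (Fin 3)) : ph H (dl l P) ∈ V0 (ph H P) ∧ (l ≠ [] → ph H (dl l P) ∈ V (ph H P)) := by
  induction l with
  | nil => exact ⟨Submodule.subset_span ⟨[], rfl⟩, fun h => absurd rfl h⟩
  | cons k l ih =>
    have h : ph H (dl (k :: l) P) ∈ V (ph H P) := by
      change ph H (pderiv k (dl l P)) ∈ _
      rw [ph_pd H hrow]
      exact (V _).sum_mem fun i _ => (V _).smul_mem _ (V_pd i ih.1)
    exact ⟨V_le_V0 _ h, fun _ => h⟩

theorem ph_V (H : Fin 3 → Fin 3 → ℝ) (hrow : ∀ j k, ∑ i, H j i * H k i = if j = k then 1 else 0)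
    (P : R3) {Q : R3} (hQ : Q ∈ V P) : ph H Q ∈ V (ph H P) := by
  unfold V at hQ
  induction hQ using Submodule.span_induction with
  | mem x hx =>
    obtain ⟨l, hl, rfl⟩ := hx
    exact (ph_dl H hrow P l).2 hl
  | zero =>
    rw [map_zero]
    exact (V _).zero_mem
  | add x y _ _ hx hy =>
    rw [map_add]
    exact (V _).add_mem hx hy
  | smul c x _ hx =>
    rw [map_smul]
    exact (V _).smul_mem c hx

theorem ph_inv (H : Fin 3 → Fin 3 → ℝ) (hcol : ∀ j k, ∑ i, H i j * H i k = if j = k then 1 else 0)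
    (Q : R3) : ph H (ph (fun i j => H j i) Q) = Q := by
  have h : (ph H).comp (ph fun i j => H j i) = AlgHom.id ℝ R3 := by
    ext1 i
    rw [AlgHom.comp_apply, ph_X, map_sum]
    simp only [map_mul, ph_C, ph_X, Finset.mul_sum]
    rw [Finset.sum_comm]
    have h1 : ∀ k, ∑ j, (C (H j i) : R3) * (C (H j k) * X k) = (if i = k then 1 else 0) * X k := by
      intro k
      have h2 : ∑ j, (C (H j i) : R3) * C (H j k) = if i = k then 1 else 0 := by
        simp only [← map_mul]
        rw [← map_sum, hcol i k]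
        split_ifs <;> simp
      rw [← h2, Finset.sum_mul]
      exact Finset.sum_congr rfl fun i _ => by ring
    simp only [h1]
    simp
  exact DFunLike.congr_fun h Q

theorem ph_r (H : Fin 3 → Fin 3 → ℝ) (hcol : ∀ j k, ∑ i, H i j * H i k = if j = k then 1 else 0) :
    ph H rr = rr := by
  have h2 : ∀ j k, ∑ i, (C (H i j) : R3) * C (H i k) = if j = k then 1 else 0 := by
    intro j k
    simp only [← map_mul]
    rw [← map_sum, hcol j k]
    split_ifs <;> simp
  have c00 := h2 0 0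
  have c11 := h2 1 1
  have c22 := h2 2 2
  have c01 := h2 0 1
  have c02 := h2 0 2
  have c12 := h2 1 2
  simp only [Fin.sum_univ_three, if_true] at c00 c11 c22
  simp only [Fin.sum_univ_three] at c01 c02 c12
  rw [if_neg (by decide)] at c01 c02 c12
  unfold rr
  simp only [Fin.sum_univ_three, map_add, map_pow, ph_X]
  linear_combination X 0 ^ 2 * c00 + X 1 ^ 2 * c11 + X 2 ^ 2 * c22 + 2 * X 0 * X 1 * c01 +
    2 * X 0 * X 2 * c02 + 2 * X 1 * X 2 * c12

/-- homogeneous polynomials of degree five -/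
theorem hom_mem {P : R3} (hP : SpanQ P) {Q : R3} (hQ : Q.IsHomogeneous 5) : Q ∈ V P := by
  rw [Q.as_sum]
  refine (V P).sum_mem fun d hd => ?_
  have h1 : ∑ i, d i = 5 := by
    have h2 := hQ (mem_support_iff.1 hd)
    rw [Finsupp.weight_apply, Finsupp.sum_fintype _ _ (by simp)] at h2
    simpa using h2
  have h3 : (monomial d (coeff d Q) : R3) = coeff d Q • ∏ i, X i ^ d i := by
    rw [monomial_eq, smul_eq_C_mul, Finsupp.prod_fintype _ _ (by simp)]
  rw [h3]
  exact (V P).smul_mem _ (hP d h1)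

theorem ph_hom (H : Fin 3 → Fin 3 → ℝ) (β : Fin 3 → ℕ) (hβ : ∑ i, β i = 5) :
    (ph H (∏ i, X i ^ β i)).IsHomogeneous 5 := by
  rw [map_prod, ← hβ]
  refine IsHomogeneous.prod _ _ _ fun i _ => ?_
  rw [map_pow, ph_X]
  have h : (∑ j, C (H i j) * X j : R3).IsHomogeneous 1 := by
    refine IsHomogeneous.sum _ _ _ fun j _ => ?_
    have := (isHomogeneous_C (Fin 3) (H i j)).mul (isHomogeneous_X ℝ j)
    simpa using this
  have h2 := h.pow (β i)
  rwa [one_mul] at h2

theorem exists_H (u : Fin 3 → ℝ) (hu : ∑ i, u i ^ 2 = 1) : ∃ H : Fin 3 → Fin 3 → ℝ,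
    (∀ j, H 0 j = u j) ∧ (∀ j k, ∑ i, H j i * H k i = if j = k then 1 else 0) ∧
    ∀ j k, ∑ i, H i j * H i k = if j = k then 1 else 0 := by
  let w : EuclideanSpace ℝ (Fin 3) := WithLp.toLp 2 u
  have hw : ‖w‖ = 1 := by
    rw [EuclideanSpace.norm_eq, Real.sqrt_eq_one]
    simpa [w] using hu
  have ho : Orthonormal ℝ (({0} : Set (Fin 3)).domRestrict fun _ : Fin 3 => w) := by
    constructor
    · intro i
      exact hw
    · intro i j hij
      exact absurd (Subsingleton.elim i j) hij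
  obtain ⟨b, hb⟩ := ho.exists_orthonormalBasis_extension_of_card_eq (by simp)
  let H : Matrix (Fin 3) (Fin 3) ℝ := Matrix.of fun i j => b i j
  have hrow : ∀ j k, ∑ i, H j i * H k i = if j = k then 1 else 0 := by
    intro j k
    have h1 := orthonormal_iff_ite.1 b.orthonormal j k
    rw [PiLp.inner_apply] at h1
    rw [← h1]
    refine Finset.sum_congr rfl fun i _ => ?_
    simp [H, mul_comm]
  have hm : H * H.transpose = 1 := by
    ext j k
    rw [Matrix.mul_apply, Matrix.one_apply, ← hrow j k]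
    rfl
  have hm2 : H.transpose * H = 1 := mul_eq_one_comm.1 hm
  refine ⟨fun i j => H i j, fun j => ?_, hrow, fun j k => ?_⟩
  · change b 0 j = u j
    rw [hb 0 (by simp)]
  · have h1 := congrFun (congrFun hm2 j) k
    rw [Matrix.mul_apply, Matrix.one_apply] at h1
    exact h1

theorem t_LAPR : S_LAPR := by
  intro h1 e m he hm
  -- the norm
  obtain ⟨s, hs⟩ : ∃ s, s = Real.sqrt (∑ i, e i ^ 2) := ⟨_, rfl⟩
  have hs2 : 0 < ∑ i, e i ^ 2 := by
    obtain ⟨i, hi⟩ := Function.ne_iff.1 he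
    exact Finset.sum_pos' (fun _ _ => sq_nonneg _) ⟨i, Finset.mem_univ _, by
      have : e i ≠ 0 := hi
      positivity⟩
  have hs0 : 0 < s := by
    rw [hs]
    exact Real.sqrt_pos.2 hs2
  have hss : s ^ 2 = ∑ i, e i ^ 2 := by
    rw [hs, Real.sq_sqrt hs2.le]
  obtain ⟨H, hH0, hrow, hcol⟩ := exists_H (fun i => s⁻¹ * e i) (by
    simp only [mul_pow]
    rw [← Finset.mul_sum, ← hss, inv_pow, inv_mul_cancel₀ (by positivity)])
  have hP : ph H (lapP (fun i => if i = 0 then 1 else 0) 5) = s⁻¹ • lapP e 5 := by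
    have e1 : lapP (fun i => if i = 0 then 1 else 0) 5 = X 0 * rr ^ 5 := by
      unfold lapP rr
      congr 1
      rw [Finset.sum_eq_single 0]
      · simp
      · intro j _ hj
        simp [hj]
      · simp
    rw [e1, map_mul, map_pow, ph_r H hcol, ph_X, smul_eq_C_mul]
    change _ = C s⁻¹ * ((∑ i, C (e i) * X i) * rr ^ 5)
    rw [← mul_assoc, Finset.mul_sum]
    congr 1
    refine Finset.sum_congr rfl fun j _ => ?_
    rw [hH0 j, map_mul]
    ring
  intro β hβ
  have h2 := hom_mem h1 (ph_hom (fun i j => H j i) β hβ)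
  have h3 := ph_V H hrow _ h2
  rw [ph_inv H hcol, hP] at h3
  exact up e m hm (V_smul _ _ h3)

end Pool.Agent.U27.DX
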